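import Pool.Agent.W668.Uni.Stmts

/-!
# UNI-PER: the periodic family of solutions (from `P_iso`, `P_orb`, `P_flow`)
-/

set_option autoImplicit false

open Set MeasureTheory Filter
open scoped ContDiff Topology NNReal

namespace Pool.Agent.W230.Uni

open Pool.Agent.W668.Uni

noncomputable section

/-- uniqueness of the solutions of `v' = p`, `p' = Φ(p) - v` -/
theorem uniq_sol {Φ : ℝ → ℝ} (hΦ : ∀ p, |deriv Φ p| ≤ 1 / 100) (hd : Differentiable ℝ Φ)
    {v p v' p' : ℝ → ℝ}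
    (h1 : ∀ t, HasDerivAt v (p t) t) (h2 : ∀ t, HasDerivAt p (Φ (p t) - v t) t)
    (h1' : ∀ t, HasDerivAt v' (p' t) t) (h2' : ∀ t, HasDerivAt p' (Φ (p' t) - v' t) t)
    (e1 : v 0 = v' 0) (e2 : p 0 = p' 0) : ∀ t, v t = v' t ∧ p t = p' t := by
  have hlip : ∀ a b : ℝ, |Φ a - Φ b| ≤ |a - b| := by
    intro a b
    have h := Convex.norm_image_sub_le_of_norm_deriv_le (f := Φ) (C := 1) (s := univ)
      (x := b) (y := a) (fun x _ => hd x) (fun x _ => by
        rw [Real.norm_eq_abs]; exact (hΦ x).trans (by norm_num)) convex_univ trivial trivial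
    simpa [Real.norm_eq_abs] using h
  have key := ODE_solution_unique_univ (E := ℝ × ℝ) (K := 2)
    (v := fun _ z => (z.2, Φ z.2 - z.1)) (s := fun _ => univ) (t₀ := 0)
    (f := fun t => (v t, p t)) (g := fun t => (v' t, p' t))
    (fun t => by
      apply LipschitzWith.lipschitzOnWith
      apply LipschitzWith.of_dist_le_mul
      intro a b
      rw [Prod.dist_eq, Prod.dist_eq]
      simp only [Real.dist_eq, NNReal.coe_ofNat]
      have k1 : |a.1 - b.1| ≤ max |a.1 - b.1| |a.2 - b.2| := le_max_left _ _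
      have k2 : |a.2 - b.2| ≤ max |a.1 - b.1| |a.2 - b.2| := le_max_right _ _
      have k3 : 0 ≤ |a.1 - b.1| := abs_nonneg _
      have k4 := hlip a.2 b.2
      have k5 : |Φ a.2 - a.1 - (Φ b.2 - b.1)| ≤ |Φ a.2 - Φ b.2| + |a.1 - b.1| := by
        have : Φ a.2 - a.1 - (Φ b.2 - b.1) = (Φ a.2 - Φ b.2) - (a.1 - b.1) := by ring
        rw [this]
        exact abs_sub _ _
      apply max_le
      · linarith [abs_nonneg (a.2 - b.2)]
      · linarith)
    (fun t => ⟨(h1 t).prodMk (h2 t), trivial⟩)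
    (fun t => ⟨(h1' t).prodMk (h2' t), trivial⟩)
    (by simp [e1, e2])
  intro t
  have h := congrFun key t
  exact ⟨congrArg Prod.fst h, congrArg Prod.snd h⟩

theorem per : P_iso → P_orb → P_flow → P_per := by
  rintro ⟨f, τ, hf, hodd, hsm, hd0, hτ, hQ⟩ horb hflow
  set Φ : ℝ → ℝ := fun p => ∫ s in (0 : ℝ)..p, f s with hΦdef
  have hfc : Continuous f := hf.continuous
  have hΦd : ∀ p, HasDerivAt Φ (f p) p := fun p =>
    intervalIntegral.integral_hasDerivAt_right (hfc.intervalIntegrable _ _)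
      hfc.aestronglyMeasurable.stronglyMeasurableAtFilter hfc.continuousAt
  have hΦdiff : Differentiable ℝ Φ := fun p => (hΦd p).differentiableAt
  have hΦder : deriv Φ = f := funext fun p => (hΦd p).deriv
  have hΦs : ContDiff ℝ ∞ Φ := by
    rw [contDiff_infty_iff_deriv]
    exact ⟨hΦdiff, by rw [hΦder]; exact hf⟩
  have hΦb : ∀ p, |deriv Φ p| ≤ 1 / 100 := fun p => by rw [hΦder]; exact hsm p
  obtain ⟨S, T, hS, hT, hST⟩ := hflow Φ hΦs hΦb
  -- the group property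
  have hgrp : ∀ (x : Fin 2 → ℝ) (s θ : ℝ),
      S (![S (x, s), T (x, s)], θ) = S (x, s + θ) ∧
      T (![S (x, s), T (x, s)], θ) = T (x, s + θ) := by
    intro x s
    have sh : ∀ θ : ℝ, HasDerivAt (fun θ : ℝ => s + θ) 1 θ := fun θ =>
      (hasDerivAt_id θ).const_add s
    have h := uniq_sol (Φ := Φ) hΦb hΦdiff
      (v := fun θ => S (![S (x, s), T (x, s)], θ)) (p := fun θ => T (![S (x, s), T (x, s)], θ))
      (v' := fun θ => S (x, s + θ)) (p' := fun θ => T (x, s + θ))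
      (fun θ => (hST _ θ).1) (fun θ => (hST _ θ).2.1)
      (fun θ => by
        have := ((hST x (s + θ)).1).comp θ (sh θ)
        rw [mul_one] at this
        exact this)
      (fun θ => by
        have := ((hST x (s + θ)).2.1).comp θ (sh θ)
        rw [mul_one] at this
        exact this)
      (by simp [(hST _ 0).2.2.1]) (by simp [(hST _ 0).2.2.2])
    exact h
  -- the starting points
  have hperY : ∀ y ∈ Ioo (1 / 2 : ℝ) (3 / 4), ∀ θ : ℝ,
      S (![Φ y, y], θ + 2 * τ) = S (![Φ y, y], θ) := by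
    intro y hy
    set x : Fin 2 → ℝ := ![Φ y, y] with hx
    have hx0 : x 0 = Φ y := by simp [hx]
    have hx1 : x 1 = y := by simp [hx]
    have h := horb f hf hodd y τ (by linarith [hy.1]) (hQ y hy)
      (fun t => T (x, t)) (fun t => Φ (T (x, t)) - S (x, t))
      (fun t => (hST x t).2.1)
      (fun t => by
        have h1 := (hΦd (T (x, t))).comp t (hST x t).2.1
        exact h1.sub (hST x t).1)
      (by rw [(hST x 0).2.2.2, hx1])
      (by rw [(hST x 0).2.2.2, (hST x 0).2.2.1, hx1, hx0, sub_self])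
    intro θ
    obtain ⟨ha, hb⟩ := h θ
    rw [ha] at hb
    linarith
  -- the parametrisation
  set m : ℝ × ℝ → (Fin 2 → ℝ) := fun z =>
    ![S (![Φ z.2, z.2], z.1), T (![Φ z.2, z.2], z.1)] with hm
  have hxs : ContDiff ℝ ∞ (fun z : ℝ × ℝ => ((![Φ z.2, z.2] : Fin 2 → ℝ), z.1)) := by
    apply ContDiff.prodMk _ contDiff_fst
    rw [contDiff_pi]
    intro i
    fin_cases i
    · exact hΦs.comp contDiff_snd
    · exact contDiff_snd
  have hms : ContDiff ℝ ∞ m := by
    rw [contDiff_pi]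
    intro i
    fin_cases i
    · exact hS.comp hxs
    · exact hT.comp hxs
  set z₀ : ℝ × ℝ := (0, 5 / 8) with hz₀
  have hmstrict : HasStrictFDerivAt m (fderiv ℝ m z₀) z₀ :=
    hms.contDiffAt.hasStrictFDerivAt (by simp)
  have hmd : HasFDerivAt m (fderiv ℝ m z₀) z₀ := hmstrict.hasFDerivAt
  have hd1 : fderiv ℝ m z₀ (1, 0) = ![5 / 8, 0] := by
    have hc : HasDerivAt (fun s : ℝ => ((s, 5 / 8) : ℝ × ℝ)) (1, 0) 0 :=
      (hasDerivAt_id (0 : ℝ)).prodMk (hasDerivAt_const _ _)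
    have h1 : HasDerivAt (fun s : ℝ => m (s, 5 / 8)) (fderiv ℝ m z₀ (1, 0)) 0 :=
      HasFDerivAt.comp_hasDerivAt (f := fun s : ℝ => ((s, 5 / 8) : ℝ × ℝ)) (0 : ℝ) hmd hc
    have h2 : HasDerivAt (fun s : ℝ => m (s, 5 / 8)) ![5 / 8, 0] 0 := by
      rw [hasDerivAt_pi]
      intro i
      fin_cases i
      · have := (hST ![Φ (5 / 8), 5 / 8] 0).1
        rw [(hST ![Φ (5 / 8), 5 / 8] 0).2.2.2] at this
        simpa [hm] using this
      · have := (hST ![Φ (5 / 8), 5 / 8] 0).2.1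
        rw [(hST ![Φ (5 / 8), 5 / 8] 0).2.2.2, (hST ![Φ (5 / 8), 5 / 8] 0).2.2.1] at this
        simpa [hm] using this
    exact h1.unique h2
  have hd2 : fderiv ℝ m z₀ (0, 1) = ![f (5 / 8), 1] := by
    have hc : HasDerivAt (fun y : ℝ => ((0, y) : ℝ × ℝ)) (0, 1) (5 / 8) :=
      (hasDerivAt_const _ _).prodMk (hasDerivAt_id _)
    have h1 : HasDerivAt (fun y : ℝ => m (0, y)) (fderiv ℝ m z₀ (0, 1)) (5 / 8) :=
      HasFDerivAt.comp_hasDerivAt (f := fun y : ℝ => ((0, y) : ℝ × ℝ)) (5 / 8 : ℝ) hmd hc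
    have h2 : HasDerivAt (fun y : ℝ => m (0, y)) ![f (5 / 8), 1] (5 / 8) := by
      have he : (fun y : ℝ => m (0, y)) = fun y : ℝ => (![Φ y, y] : Fin 2 → ℝ) := by
        funext y
        ext i
        fin_cases i
        · simp [hm, (hST ![Φ y, y] 0).2.2.1]
        · simp [hm, (hST ![Φ y, y] 0).2.2.2]
      rw [he, hasDerivAt_pi]
      intro i
      fin_cases i
      · simpa using hΦd (5 / 8)
      · exact hasDerivAt_id (5 / 8 : ℝ)
    exact h1.unique h2
  have hrange : (fderiv ℝ m z₀).range = ⊤ := by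
    rw [eq_top_iff]
    intro z _
    refine ⟨((z 0 - z 1 * f (5 / 8)) / (5 / 8), z 1), ?_⟩
    have hdec : (((z 0 - z 1 * f (5 / 8)) / (5 / 8), z 1) : ℝ × ℝ)
        = ((z 0 - z 1 * f (5 / 8)) / (5 / 8)) • ((1, 0) : ℝ × ℝ) + (z 1) • ((0, 1) : ℝ × ℝ) := by
      ext <;> simp
    rw [hdec]
    simp only [ContinuousLinearMap.coe_coe, map_add, map_smul, hd1, hd2]
    ext i
    fin_cases i
    · simp
    · simp
  have hnhds : map m (𝓝 z₀) = 𝓝 (m z₀) := hmstrict.map_nhds_eq_of_surj hrange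
  set A : Set (Fin 2 → ℝ) := m '' (univ ×ˢ Ioo (1 / 2 : ℝ) (3 / 4)) with hA
  have hopen : IsOpen ((univ : Set ℝ) ×ˢ Ioo (1 / 2 : ℝ) (3 / 4)) := isOpen_univ.prod isOpen_Ioo
  have hmem : ((univ : Set ℝ) ×ˢ Ioo (1 / 2 : ℝ) (3 / 4)) ∈ 𝓝 z₀ :=
    hopen.mem_nhds ⟨trivial, by rw [hz₀]; constructor <;> norm_num⟩
  have hAn : A ∈ 𝓝 (m z₀) := by
    rw [← hnhds]
    exact image_mem_map hmem
  have hperA : ∀ x ∈ A, ∀ θ, S (x, θ + 2 * τ) = S (x, θ) := by
    rintro x ⟨⟨s, y⟩, ⟨_, hy⟩, rfl⟩ θ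
    have h1 := (hgrp ![Φ y, y] s (θ + 2 * τ)).1
    have h2 := (hgrp ![Φ y, y] s θ).1
    have h3 := hperY y hy (s + θ)
    have e : m (s, y) = ![S (![Φ y, y], s), T (![Φ y, y], s)] := rfl
    rw [e, h1, h2, ← h3]
    ring_nf
  have hτ' := abs_le.1 hτ
  have hpi := Real.pi_gt_three
  refine ⟨f, Φ, 2 * τ, interior A, S, T, ?_⟩
  refine
    { f_smooth := hf
      f_small := hsm
      f_der := hd0
      Φ_der := hΦd
      L_near := ?_
      U_open := isOpen_interior
      S_smooth := hS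
      T_smooth := hT
      S_der := fun x θ => (hST x θ).1
      T_der := fun x θ => (hST x θ).2.1
      S_zero := fun x => (hST x 0).2.2.1
      T_zero := fun x => (hST x 0).2.2.2
      per := fun x hx θ => hperA x (interior_subset hx) θ
      pt := ?_ }
  · rw [abs_le]
    constructor <;> linarith [hτ'.1, hτ'.2]
  · refine ⟨m z₀, mem_interior_iff_mem_nhds.2 hAn, ?_⟩
    have hx : m z₀ ∈ A := mem_of_mem_nhds hAn
    have hp := hperA _ hx 0
    rw [zero_add] at hp
    obtain ⟨θ, _, hθ⟩ := exists_hasDerivAt_eq_zero (f := fun s => S (m z₀, s))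
      (f' := fun s => T (m z₀, s)) (a := 0) (b := 2 * τ) (by linarith [hτ'.1])
      (fun s _ => (hST (m z₀) s).1.continuousAt.continuousWithinAt) hp.symm
      (fun s _ => (hST (m z₀) s).1)
    exact ⟨θ, hθ⟩

end

end Pool.Agent.W230.Uni
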